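import Pool.Agent.Helper30.RCU.Defs

/-!
# Project RCU (MP_e3e162_pr), module MK: free versus wired, domain Markov property
-/

set_option autoImplicit false

namespace Pool.Agent.Helper41.RCU

open Pool.Agent.Helper30.RCU Finset

open Classical

universe u v

section

variable {V : Type u} {ι : Type v} {φ : ι → Sym2 V}

/-- Connections in a union of two edge sets whose ends are separated by `P`. -/
lemma conn_sep {A B : Set ι} {P : V → Prop} (hA : ∀ e ∈ A, ∀ v ∈ φ e, P v)
    (hB : ∀ e ∈ B, ∀ v ∈ φ e, ¬ P v) {u v : V} (h : Conn φ (A ∪ B) u v) :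
    (P u → P v ∧ Conn φ A u v) ∧ (¬ P u → ¬ P v ∧ Conn φ B u v) := by
  obtain ⟨w⟩ := h
  induction w with
  | nil => exact ⟨fun hp => ⟨hp, Conn.refl _ _⟩, fun hp => ⟨hp, Conn.refl _ _⟩⟩
  | @cons u w v hadj p ih =>
    rw [gr, SimpleGraph.fromEdgeSet_adj] at hadj
    obtain ⟨⟨e', hmem, he'⟩, hne⟩ := hadj
    have hu : u ∈ φ e' := he' ▸ Sym2.mem_mk_left _ _
    have hw : w ∈ φ e' := he' ▸ Sym2.mem_mk_right _ _
    rcases hmem with hm | hm
    · refine ⟨fun _ => ?_, fun hp => absurd (hA e' hm u hu) hp⟩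
      obtain ⟨h1, h2⟩ := ih.1 (hA e' hm w hw)
      exact ⟨h1, (conn_of_mem he' hm).trans h2⟩
    · refine ⟨fun hp => absurd hp (hB e' hm u hu), fun _ => ?_⟩
      obtain ⟨h1, h2⟩ := ih.2 (hB e' hm w hw)
      exact ⟨h1, (conn_of_mem he' hm).trans h2⟩

/-- the rank is additive over separated edge sets -/
lemma rk_union_sep {A B : Finset ι} {P : V → Prop} (hA : ∀ e ∈ A, ∀ v ∈ φ e, P v)
    (hB : ∀ e ∈ B, ∀ v ∈ φ e, ¬ P v) : rk φ (A ∪ B) = rk φ A + rk φ B := by
  induction B using Finset.induction_on with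
  | empty => rw [union_empty, rk_empty, add_zero]
  | insert e B he ih =>
    have hB' : ∀ e ∈ B, ∀ v ∈ φ e, ¬ P v := fun e' h' => hB e' (mem_insert_of_mem h')
    have ih' := ih hB'
    obtain ⟨a, b, hab⟩ := exists_mk (φ := φ) e
    have ha : ¬ P a := hB e (mem_insert_self _ _) a (hab ▸ Sym2.mem_mk_left _ _)
    rw [union_insert]
    by_cases hc : Conn φ ((A ∪ B : Finset ι) : Set ι) a b
    · have hc' : Conn φ (B : Set ι) a b := by
        rw [coe_union] at hc
        exact ((conn_sep (φ := φ) (A := (A : Set ι)) (B := (B : Set ι)) (P := P)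
          (fun e' h' => hA e' (by exact_mod_cast h'))
          (fun e' h' => hB' e' (by exact_mod_cast h')) hc).2 ha).2
      rw [rk_insert_of_conn hab hc, rk_insert_of_conn hab hc', ih']
    · have hc' : ¬ Conn φ (B : Set ι) a b := fun h => hc (h.mono (by
        rw [coe_union]; exact Set.subset_union_right))
      rw [rk_insert_of_not_conn hab hc, rk_insert_of_not_conn hab hc', ih', add_assoc]

/-- the edges of `ω` whose ends are connected to `z` -/
noncomputable def cl (φ : ι → Sym2 V) (z : V) (ω : Finset ι) : Finset ι :=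
  ω.filter fun e => ∀ v ∈ φ e, Conn φ (ω : Set ι) v z

lemma cl_subset (z : V) (ω : Finset ι) : cl φ z ω ⊆ ω := filter_subset _ _

/-- connections to `z` only use the edges of the cluster -/
lemma conn_cl {z : V} {ω : Finset ι} {v : V} (h : Conn φ (ω : Set ι) v z) :
    Conn φ (cl φ z ω : Set ι) v z := by
  obtain ⟨w⟩ := h
  induction w with
  | nil => exact Conn.refl _ _
  | @cons u w v hadj p ih =>
    have hw : Conn φ (ω : Set ι) w v := ⟨p⟩
    have hadj' := hadj
    rw [gr, SimpleGraph.fromEdgeSet_adj] at hadj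
    obtain ⟨⟨e', hmem, he'⟩, hne⟩ := hadj
    have hmem' : e' ∈ ω := by exact_mod_cast hmem
    have huw : Conn φ (ω : Set ι) u w := conn_of_mem he' hmem
    have he'c : e' ∈ (cl φ v ω : Set ι) := by
      rw [mem_coe]
      unfold cl
      rw [mem_filter]
      refine ⟨hmem', fun x hx => ?_⟩
      rw [he', Sym2.mem_iff] at hx
      rcases hx with rfl | rfl
      · exact huw.trans hw
      · exact hw
    exact (conn_of_mem he' he'c).trans ih

/-- the edges of `H` without an end in the cluster `A` of `z` -/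
noncomputable def H3 (φ : ι → Sym2 V) (z : V) (H A : Finset ι) : Finset ι :=
  H.filter fun e => ∀ v ∈ φ e, ¬ Conn φ (A : Set ι) v z

lemma H3_sub (z : V) (H A : Finset ι) : H3 φ z H A ⊆ H := filter_subset _ _

/-- a set of edges is connected to `z` -/
def Cz (φ : ι → Sym2 V) (z : V) (A : Finset ι) : Prop :=
  ∀ e ∈ A, ∀ v ∈ φ e, Conn φ (A : Set ι) v z

lemma Cz_cl (z : V) (ω : Finset ι) : Cz φ z (cl φ z ω) := by
  intro e he v hv
  unfold cl at he
  rw [mem_filter] at he
  exact conn_cl (he.2 v hv)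

lemma disj_H3 {z : V} {H A : Finset ι} (hA : Cz φ z A) : Disjoint A (H3 φ z H A) := by
  rw [Finset.disjoint_left]
  intro e he he3
  obtain ⟨a, b, hab⟩ := exists_mk (φ := φ) e
  have ha : a ∈ φ e := hab ▸ Sym2.mem_mk_left _ _
  unfold H3 at he3
  exact (mem_filter.1 he3).2 a ha (hA e he a ha)

lemma conn_union_iff {z : V} {H A B : Finset ι} (hA : Cz φ z A) (hB : B ⊆ H3 φ z H A) (v : V) :
    Conn φ ((A ∪ B : Finset ι) : Set ι) v z ↔ Conn φ (A : Set ι) v z := by
  constructor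
  · intro h
    rw [coe_union] at h
    have h1 := (conn_sep (φ := φ) (A := (A : Set ι)) (B := (B : Set ι))
      (P := fun x => Conn φ (A : Set ι) x z)
      (fun e' h' => hA e' (by exact_mod_cast h'))
      (fun e' h' v' hv' => (mem_filter.1 (hB (by exact_mod_cast h'))).2 v' hv') h.symm).1
      (Conn.refl _ _)
    exact h1.1
  · exact fun h => h.mono (by rw [coe_union]; exact Set.subset_union_left)

lemma cl_union {z : V} {H A B : Finset ι} (hA : Cz φ z A) (hB : B ⊆ H3 φ z H A) :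
    cl φ z (A ∪ B) = A := by
  ext e
  unfold cl
  rw [mem_filter, mem_union]
  constructor
  · rintro ⟨h1 | h1, h2⟩
    · exact h1
    · exfalso
      obtain ⟨a, b, hab⟩ := exists_mk (φ := φ) e
      have ha : a ∈ φ e := hab ▸ Sym2.mem_mk_left _ _
      exact (mem_filter.1 (hB h1)).2 a ha ((conn_union_iff hA hB a).1 (h2 a ha))
  · intro h
    exact ⟨Or.inl h, fun v hv => (conn_union_iff hA hB v).2 (hA e h v hv)⟩

lemma sdiff_cl_sub {z : V} {H ω : Finset ι} (hω : ω ⊆ H) :
    ω \ cl φ z ω ⊆ H3 φ z H (cl φ z ω) := by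
  intro e he
  rw [mem_sdiff] at he
  obtain ⟨h1, h2⟩ := he
  unfold H3
  rw [mem_filter]
  refine ⟨hω h1, fun v hv hc => h2 ?_⟩
  have hc' : Conn φ (ω : Set ι) v z := hc.mono (by exact_mod_cast cl_subset z ω)
  unfold cl
  rw [mem_filter]
  refine ⟨h1, fun x hx => ?_⟩
  obtain ⟨w, hw⟩ := Sym2.mem_iff_exists.1 hv
  rw [hw, Sym2.mem_iff] at hx
  rcases hx with rfl | rfl
  · exact hc'
  · exact (conn_of_mem hw (by exact_mod_cast h1) : Conn φ (ω : Set ι) v x).symm.trans hc'

variable {p : ι → ℝ} {q : ℝ}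

/-- the weight of the cluster -/
noncomputable def aw (φ : ι → Sym2 V) (p : ι → ℝ) (q : ℝ) (z : V) (H A : Finset ι) : ℝ :=
  (∏ e ∈ A, p e) * (∏ e ∈ (H \ H3 φ z H A) \ A, (1 - p e)) * q⁻¹ ^ rk φ A

lemma wt_union {z : V} {H A B : Finset ι} (hA : Cz φ z A) (hB : B ⊆ H3 φ z H A) :
    wt φ p q H (A ∪ B) = aw φ p q z H A * wt φ p q (H3 φ z H A) B := by
  have hd := disj_H3 (H := H) hA
  have hAB : Disjoint A B := hd.mono_right hB
  have hset : H \ (A ∪ B) = ((H \ H3 φ z H A) \ A) ∪ (H3 φ z H A \ B) := by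
    ext e
    simp only [mem_sdiff, mem_union]
    constructor
    · rintro ⟨h1, h2⟩
      by_cases h3 : e ∈ H3 φ z H A
      · exact Or.inr ⟨h3, fun h => h2 (Or.inr h)⟩
      · exact Or.inl ⟨⟨h1, h3⟩, fun h => h2 (Or.inl h)⟩
    · rintro (⟨⟨h1, h2⟩, h3⟩ | ⟨h1, h2⟩)
      · exact ⟨h1, fun h => h.elim h3 fun h => h2 (hB h)⟩
      · exact ⟨H3_sub z H A h1, fun h => h.elim (fun h => disjoint_left.1 hd h h1) h2⟩
  have hdis : Disjoint ((H \ H3 φ z H A) \ A) (H3 φ z H A \ B) := by
    rw [disjoint_left]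
    intro e h1 h2
    exact (mem_sdiff.1 (mem_sdiff.1 h1).1).2 (mem_sdiff.1 h2).1
  have hrk : rk φ (A ∪ B) = rk φ A + rk φ B :=
    rk_union_sep (P := fun x => Conn φ (A : Set ι) x z) hA
      (fun e he v hv => (mem_filter.1 (hB he)).2 v hv)
  unfold wt aw
  rw [hset, prod_union hAB, prod_union hdis, hrk, pow_add]
  ring

/-- sum over the configurations with a given cluster -/
lemma fiber_sum {z : V} {H A : Finset ι} (hAH : A ⊆ H) (hA : Cz φ z A) (g : Finset ι → ℝ) :
    ∑ ω ∈ H.powerset.filter (fun ω => cl φ z ω = A), wt φ p q H ω * g ω =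
      aw φ p q z H A * S φ p q (H3 φ z H A) (fun B => g (A ∪ B)) := by
  unfold S
  rw [mul_sum]
  refine sum_nbij' (i := fun ω => ω \ A) (j := fun B => A ∪ B) ?_ ?_ ?_ ?_ ?_
  · intro ω hω
    rw [mem_filter, mem_powerset] at hω
    rw [mem_powerset, ← hω.2]
    exact sdiff_cl_sub hω.1
  · intro B hB
    rw [mem_powerset] at hB
    rw [mem_filter, mem_powerset]
    exact ⟨union_subset hAH (hB.trans (H3_sub z H A)), cl_union hA hB⟩
  · intro ω hω
    rw [mem_filter, mem_powerset] at hω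
    have : A ⊆ ω := by rw [← hω.2]; exact cl_subset z ω
    exact union_sdiff_of_subset this
  · intro B hB
    rw [mem_powerset] at hB
    have hd : Disjoint A B := (disj_H3 (H := H) hA).mono_right hB
    exact union_sdiff_cancel_left hd
  · intro ω hω
    rw [mem_filter, mem_powerset] at hω
    have hAω : A ⊆ ω := by rw [← hω.2]; exact cl_subset z ω
    have hB : ω \ A ⊆ H3 φ z H A := by
      have := sdiff_cl_sub (φ := φ) (z := z) hω.1
      rwa [hω.2] at this
    have e1 : A ∪ (ω \ A) = ω := union_sdiff_of_subset hAω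
    have e2 := wt_union (p := p) (q := q) hA hB
    rw [e1] at e2
    beta_reduce
    rw [e1, e2, mul_assoc]

/-- a walk from a point outside the cluster of `z` to `z` uses an edge of the boundary -/
lemma H3_sub_of_aw_ne {z : V} {F H A : Finset ι} (hA : Cz φ z A)
    (hHF : ∀ e ∈ H \ F, p e = 1 ∧ ∀ v ∈ φ e, Conn φ ((H \ F : Finset ι) : Set ι) v z)
    (hne : aw φ p q z H A ≠ 0) : H3 φ z H A ⊆ F := by
  have hmem : ∀ e ∈ H \ F, e ∉ H3 φ z H A → e ∈ A := by
    intro e he he3
    by_contra heA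
    apply hne
    have : ∏ e ∈ (H \ H3 φ z H A) \ A, (1 - p e) = 0 := by
      refine prod_eq_zero (i := e) ?_ ?_
      · rw [mem_sdiff, mem_sdiff]
        exact ⟨⟨(mem_sdiff.1 he).1, he3⟩, heA⟩
      · rw [(hHF e he).1, sub_self]
    unfold aw
    rw [this, mul_zero, zero_mul]
  -- all vertices connected to `z` in `H \ F` are in the cluster
  have key : ∀ v : V, Conn φ ((H \ F : Finset ι) : Set ι) v z → Conn φ (A : Set ι) v z := by
    rintro v ⟨w⟩
    induction w with
    | nil => exact Conn.refl _ _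
    | @cons u w v hadj p ih =>
      rw [gr, SimpleGraph.fromEdgeSet_adj] at hadj
      obtain ⟨⟨e', hm, he'⟩, hne'⟩ := hadj
      have hm' : e' ∈ H \ F := by exact_mod_cast hm
      have ihw := ih hA hHF hne hmem
      have hu : u ∈ φ e' := he' ▸ Sym2.mem_mk_left _ _
      have hw : w ∈ φ e' := he' ▸ Sym2.mem_mk_right _ _
      have h3 : e' ∉ H3 φ v H A := fun h => (mem_filter.1 h).2 w hw ihw
      exact hA e' (hmem e' hm' h3) u hu
  intro e he
  by_contra heF
  have he' : e ∈ H \ F := mem_sdiff.2 ⟨H3_sub z H A he, heF⟩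
  obtain ⟨a, b, hab⟩ := exists_mk (φ := φ) e
  have ha : a ∈ φ e := hab ▸ Sym2.mem_mk_left _ _
  exact (mem_filter.1 he).2 a ha (key a ((hHF e he').2 a ha))

end

section

variable {V ι : Type u} {φ : ι → Sym2 V} {p : ι → ℝ} {q : ℝ}

/-- the indicator of the event that no end of an edge of `K` is connected to `z` -/
noncomputable def av (φ : ι → Sym2 V) (z : V) (K ω : Finset ι) : ℝ :=
  if (∀ x ∈ ends φ K, ¬ Conn φ (ω : Set ι) x z) then 1 else 0

lemma av_nonneg (z : V) (K ω : Finset ι) : 0 ≤ av φ z K ω := by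
  unfold av; split_ifs <;> simp

lemma av_le_one (z : V) (K ω : Finset ι) : av φ z K ω ≤ 1 := by
  unfold av; split_ifs <;> simp

lemma fiber_le (hp : ∀ e, 0 ≤ p e) (hp1 : ∀ e, p e ≤ 1) (hq : 1 ≤ q) {F H K : Finset ι} {z : V}
    (hHF : ∀ e ∈ H \ F, p e = 1 ∧ ∀ v ∈ φ e, Conn φ ((H \ F : Finset ι) : Set ι) v z)
    {f : Finset ι → ℝ} (hf : Monotone f) (hf0 : ∀ ω, 0 ≤ f ω)
    (hfK : ∀ ω, f ω = f (ω ∩ K)) (A : Finset ι) (hAH : A ⊆ H) :
    ∑ ω ∈ H.powerset.filter (fun ω => cl φ z ω = A), wt φ p q H ω * (f ω * av φ z K ω) ≤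
      ex φ p q F f *
        ∑ ω ∈ H.powerset.filter (fun ω => cl φ z ω = A), wt φ p q H ω * 1 := by
  have hexF : 0 ≤ ex φ p q F f := ex_nonneg hp hp1 hq F hf0
  by_cases hAc : Cz φ z A
  swap
  · have hemp : H.powerset.filter (fun ω => cl φ z ω = A) = ∅ := by
      rw [filter_eq_empty_iff]
      intro ω _ h
      exact hAc (h ▸ Cz_cl z ω)
    rw [hemp]
    simp
  rw [fiber_sum hAH hAc, fiber_sum hAH hAc]
  have haw : 0 ≤ aw φ p q z H A := by
    unfold aw
    have h1 : 0 ≤ ∏ e ∈ A, p e := prod_nonneg fun e _ => hp e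
    have h2 : 0 ≤ ∏ e ∈ (H \ H3 φ z H A) \ A, (1 - p e) :=
      prod_nonneg fun e _ => sub_nonneg.mpr (hp1 e)
    positivity
  have hS1 := S_one_pos (φ := φ) hp hp1 hq (H3 φ z H A)
  rcases eq_or_lt_of_le haw with h0 | hpos
  · rw [← h0]
    simp
  have hsub : H3 φ z H A ⊆ F := H3_sub_of_aw_ne hAc hHF hpos.ne'
  by_cases hK : ∀ x ∈ ends φ K, ¬ Conn φ (A : Set ι) x z
  · have hval : S φ p q (H3 φ z H A) (fun B => f (A ∪ B) * av φ z K (A ∪ B)) ≤
        S φ p q (H3 φ z H A) f := by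
      unfold S
      refine sum_le_sum fun B hB => ?_
      rw [mem_powerset] at hB
      have hAK : A ∩ K = ∅ := by
        rw [← disjoint_iff_inter_eq_empty, disjoint_left]
        intro e he heK
        obtain ⟨a, b, hab⟩ := exists_mk (φ := φ) e
        have ha : a ∈ φ e := hab ▸ Sym2.mem_mk_left _ _
        exact hK a (mem_ends.2 ⟨e, heK, ha⟩) (hAc e he a ha)
      have e1 : f (A ∪ B) = f B := by
        rw [hfK (A ∪ B), hfK B, union_inter_distrib_right, hAK, empty_union]
      refine mul_le_mul_of_nonneg_left ?_ (wt_nonneg hp hp1 hq _ _)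
      beta_reduce
      rw [e1]
      exact mul_le_of_le_one_right (hf0 B) (av_le_one z K _)
    have h1 : ex φ p q (H3 φ z H A) f ≤ ex φ p q F f := by
      have := ex_union_mono (φ := φ) hp hp1 hq (H3 φ z H A) F hf0 hf
      rwa [union_eq_right.mpr hsub] at this
    have h2 : S φ p q (H3 φ z H A) f ≤ ex φ p q F f * S φ p q (H3 φ z H A) (fun _ => 1) := by
      unfold ex at h1
      rwa [div_le_iff₀ hS1] at h1
    calc aw φ p q z H A * S φ p q (H3 φ z H A) (fun B => f (A ∪ B) * av φ z K (A ∪ B))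
        ≤ aw φ p q z H A * (ex φ p q F f * S φ p q (H3 φ z H A) (fun _ => 1)) :=
          mul_le_mul_of_nonneg_left (hval.trans h2) haw
      _ = ex φ p q F f * (aw φ p q z H A * S φ p q (H3 φ z H A) (fun _ => 1)) := by ring
  · push Not at hK
    obtain ⟨x, hx, hxc⟩ := hK
    have hz : S φ p q (H3 φ z H A) (fun B => f (A ∪ B) * av φ z K (A ∪ B)) = 0 := by
      unfold S
      refine sum_eq_zero fun B hB => ?_
      rw [mem_powerset] at hB
      have : av φ z K (A ∪ B) = 0 := by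
        unfold av
        rw [if_neg]
        intro h
        exact h x hx ((conn_union_iff hAc hB x).2 hxc)
      beta_reduce
      rw [this, mul_zero, mul_zero]
    rw [hz, mul_zero]
    positivity

/-- free versus wired -/
theorem main (hp : ∀ e, 0 ≤ p e) (hp1 : ∀ e, p e ≤ 1) (hq : 1 ≤ q) {F H K : Finset ι} {z : V}
    (hHF : ∀ e ∈ H \ F, p e = 1 ∧ ∀ v ∈ φ e, Conn φ ((H \ F : Finset ι) : Set ι) v z)
    {f : Finset ι → ℝ} (hf : Monotone f) (hf0 : ∀ ω, 0 ≤ f ω) (hf1 : ∀ ω, f ω ≤ 1)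
    (hfK : ∀ ω, f ω = f (ω ∩ K)) :
    ex φ p q H f ≤ ex φ p q F f + ∑ x ∈ ends φ K, ex φ p q H (ind φ x z) := by
  have hS1 := S_one_pos (φ := φ) hp hp1 hq H
  have hmaps : ∀ ω ∈ H.powerset, cl φ z ω ∈ H.powerset := fun ω hω =>
    mem_powerset.2 ((cl_subset z ω).trans (mem_powerset.1 hω))
  have h1 : S φ p q H (fun ω => f ω * av φ z K ω) ≤ ex φ p q F f * S φ p q H (fun _ => 1) := by
    unfold S
    rw [← sum_fiberwise_of_maps_to hmaps (fun ω => wt φ p q H ω * (f ω * av φ z K ω)),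
      ← sum_fiberwise_of_maps_to hmaps (fun ω => wt φ p q H ω * 1), mul_sum]
    exact sum_le_sum fun A hA => fiber_le hp hp1 hq hHF hf hf0 hfK A (mem_powerset.1 hA)
  have h2 : ex φ p q H (fun ω => f ω * av φ z K ω) ≤ ex φ p q F f := by
    unfold ex
    rw [div_le_iff₀ hS1]
    exact h1
  have hsum : ∀ T : Finset V, ex φ p q H (fun ω => ∑ x ∈ T, ind φ x z ω) =
      ∑ x ∈ T, ex φ p q H (ind φ x z) := by
    intro T
    induction T using Finset.induction_on with
    | empty =>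
      simp only [sum_empty]
      exact ex_const hp hp1 hq H 0
    | insert x T hx ih =>
      simp only [sum_insert hx]
      rw [ex_add, ih]
  have h3 : ex φ p q H f ≤
      ex φ p q H (fun ω => f ω * av φ z K ω + ∑ x ∈ ends φ K, ind φ x z ω) := by
    refine ex_le hp hp1 hq H fun ω => ?_
    by_cases h : ∀ x ∈ ends φ K, ¬ Conn φ (ω : Set ι) x z
    · have e1 : av φ z K ω = 1 := by unfold av; rw [if_pos h]
      have e2 : 0 ≤ ∑ x ∈ ends φ K, ind φ x z ω := sum_nonneg fun x _ => ind_nonneg x z ω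
      rw [e1, mul_one]
      linarith
    · have e0 := h
      push Not at h
      obtain ⟨x, hx, hxc⟩ := h
      have e1 : av φ z K ω = 0 := by unfold av; rw [if_neg e0]
      have e2 : ind φ x z ω ≤ ∑ x ∈ ends φ K, ind φ x z ω :=
        single_le_sum (f := fun x => ind φ x z ω) (fun y _ => ind_nonneg y z ω) hx
      have e3 : ind φ x z ω = 1 := by unfold ind; rw [if_pos hxc]
      rw [e1, mul_zero]
      linarith [hf1 ω]
  rw [ex_add, hsum] at h3
  linarith

end

/-- Module MK. -/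
theorem hMK : StMK.{u} := by
  intro V ι φ p q hp hp1 hq F H K z _ _ hHF f hf hf0 hf1 hfK
  exact main hp hp1 hq hHF hf hf0 hf1 hfK

end Pool.Agent.Helper41.RCU
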